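import Pool.Agent.TH133.PW.Kun
import Pool.Agent.TH133.PW.CasB
import Pool.Agent.TH133.PW.EvDefs
import Pool.Agent.H578R3.SgnCyc

/-!
# The pointwise principle for the even Kunneth projector
-/

open CategoryTheory AlgebraicGeometry Finset

universe u v

namespace Pool.Agent.TH133.PW

open Pool.Agent.H914 VarClass Obj WeilCohomology Pool.Agent.TH122.Km Pool.Agent.W537
  Pool.Agent.H447 Pool.Agent.H578R3

section Lin

variable {K V : Type*} [Field K] [AddCommGroup V] [Module K V] {gr : ℕ → Submodule K V}

/-- The even projector from the separation of vectors. -/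
theorem evenProj_of_separates [FiniteDimensional K V] {S : Set (V →ₗ[K] V)}
    {N : ℕ} (hN : ∀ i, N ≤ i → gr i = ⊥)
    (h1 : (1 : Module.End K V) ∈ Submodule.span K S)
    (hmul : ∀ a ∈ Submodule.span K S, ∀ b ∈ Submodule.span K S,
      (a * b : Module.End K V) ∈ Submodule.span K S)
    (hgr : ∀ a ∈ Submodule.span K S, ∀ i, ∀ y ∈ gr i, a y ∈ gr i)
    (h : SeparatesParity gr S) : EvenProjInSpan gr S := by
  have hsep : ∀ i j, Even i → Odd j → ∃ c ∈ Submodule.span K S, (∀ y ∈ gr i, c y = 0) ∧
      ∀ y' ∈ gr j, c y' = y' := fun i j hi hj =>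
    separate_two h1 hmul (IsNoetherian.noetherian _) (IsNoetherian.noetherian _)
      (fun b hb => hgr b hb i) (fun b hb => hgr b hb j) (h i j hi hj)
  -- one even degree
  have key : ∀ i, Even i → ∀ m : ℕ, ∃ e ∈ Submodule.span K S, (∀ y ∈ gr i, e y = y) ∧
      ∀ j < m, Odd j → ∀ y ∈ gr j, e y = 0 := by
    intro i hi m
    induction m with
    | zero => exact ⟨1, h1, fun y _ => rfl, fun j hj => absurd hj (Nat.not_lt_zero _)⟩
    | succ m ih =>
      obtain ⟨e, he, he1, he2⟩ := ih
      by_cases hm : Odd m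
      · obtain ⟨c, hc, hc1, hc2⟩ := hsep i m hi hm
        refine ⟨e * (1 - c), hmul _ he _ (Submodule.sub_mem _ h1 hc), ?_, ?_⟩
        · intro y hy
          rw [Module.End.mul_apply, LinearMap.sub_apply, Module.End.one_apply, hc1 y hy, sub_zero,
            he1 y hy]
        · intro j hj hjo y hy
          rw [Module.End.mul_apply, LinearMap.sub_apply, Module.End.one_apply]
          by_cases hjm : j = m
          · subst hjm
            rw [hc2 y hy, sub_self, map_zero]
          · exact he2 j (by omega) hjo _ (Submodule.sub_mem _ hy (hgr c hc j y hy))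
      · refine ⟨e, he, he1, fun j hj hjo y hy => he2 j ?_ hjo y hy⟩
        have : j ≠ m := by rintro rfl; exact hm hjo
        omega
  have key' : ∀ i, Even i → ∃ e ∈ Submodule.span K S, (∀ y ∈ gr i, e y = y) ∧
      ∀ j, Odd j → ∀ y ∈ gr j, e y = 0 := by
    intro i hi
    obtain ⟨e, he, he1, he2⟩ := key i hi N
    refine ⟨e, he, he1, fun j hj y hy => ?_⟩
    by_cases hjN : j < N
    · exact he2 j hjN hj y hy
    · rw [hN j (by omega)] at hy
      rw [(Submodule.mem_bot _).1 hy, map_zero]
  -- all even degrees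
  have all : ∀ m : ℕ, ∃ f ∈ Submodule.span K S, (∀ j, Odd j → ∀ y ∈ gr j, f y = y) ∧
      ∀ i < m, Even i → ∀ y ∈ gr i, f y = 0 := by
    intro m
    induction m with
    | zero => exact ⟨1, h1, fun j _ y _ => rfl, fun j hj => absurd hj (Nat.not_lt_zero _)⟩
    | succ m ih =>
      obtain ⟨f, hf, hf1, hf2⟩ := ih
      by_cases hm : Even m
      · obtain ⟨e, he, he1, he2⟩ := key' m hm
        refine ⟨f * (1 - e), hmul _ hf _ (Submodule.sub_mem _ h1 he), ?_, ?_⟩
        · intro j hj y hy
          rw [Module.End.mul_apply, LinearMap.sub_apply, Module.End.one_apply, he2 j hj y hy,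
            sub_zero, hf1 j hj y hy]
        · intro i hi hie y hy
          rw [Module.End.mul_apply, LinearMap.sub_apply, Module.End.one_apply]
          by_cases him : i = m
          · subst him
            rw [he1 y hy, sub_self, map_zero]
          · exact hf2 i (by omega) hie _ (Submodule.sub_mem _ hy (hgr e he i y hy))
      · refine ⟨f, hf, hf1, fun i hi hie y hy => hf2 i ?_ hie y hy⟩
        have : i ≠ m := by rintro rfl; exact hm hie
        omega
  obtain ⟨f, hf, hf1, hf2⟩ := all N
  refine ⟨1 - f, Submodule.sub_mem _ h1 hf, fun j a ha => ?_⟩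
  rw [LinearMap.sub_apply, Module.End.one_apply]
  split_ifs with hj
  · by_cases hjN : j < N
    · rw [hf2 j hjN hj a ha, sub_zero]
    · rw [hN j (by omega)] at ha
      rw [(Submodule.mem_bot _).1 ha, map_zero, sub_zero]
  · rw [hf1 j (Nat.not_even_iff_odd.1 hj) a ha, sub_self]

end Lin

section Cyc

variable {k : Type u} [Field k] {𝒱 : VarClass k} {ops : CycleOps 𝒱}
  {W : WeilCohomology.{u, v} ops} {X : 𝒱.Obj}

/-- Detection of the pairs gives the separation. -/
theorem separatesParity_of_detects (h : DetectsParity W X) :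
    SeparatesParity (W.gr X) (cycleOperators W X X.dim) := by
  intro i j hi hj y hy y' hy'
  rw [span_cycleOperators0]
  by_cases hi2 : i ≤ 2 * X.dim
  swap
  · rw [W.gr_eq_bot X i (by omega)] at hy
    exact ⟨0, Submodule.zero_mem _, by rw [(Submodule.mem_bot _).1 hy, map_zero], by simp⟩
  by_cases hj2 : j ≤ 2 * X.dim
  swap
  · rw [W.gr_eq_bot X j (by omega)] at hy'
    exact ⟨LinearMap.id, KOp.id X, rfl, by rw [(Submodule.mem_bot _).1 hy', map_zero]⟩
  -- the subspace of the pairs `(φ y, φ y')`
  let M : Submodule W.K (W.H X × W.H X) := (KOp W X X 0).map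
    ((LinearMap.applyₗ y).prod (LinearMap.applyₗ y'))
  by_contra hcon
  have hnot : ((y, 0) : W.H X × W.H X) ∉ M := by
    rintro ⟨φ, hφ, hφy⟩
    have h1 : φ y = y := congrArg Prod.fst hφy
    have h2 : φ y' = 0 := congrArg Prod.snd hφy
    exact hcon ⟨φ, hφ, h1, h2⟩
  obtain ⟨f, hf, hfM⟩ := Submodule.exists_le_ker_of_notMem hnot
  obtain ⟨w, hw⟩ := exists_dual (W := W) (X := X) (f ∘ₗ LinearMap.inl W.K _ _)
  obtain ⟨w', hw'⟩ := exists_dual (W := W) (X := X) (f ∘ₗ LinearMap.inr W.K _ _)
  have hff : ∀ x x', f (x, x') = W.tr X (x * w) + W.tr X (x' * w') := by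
    intro x x'
    rw [← hw, ← hw', LinearMap.comp_apply, LinearMap.comp_apply, ← map_add]
    simp
  apply hf
  rw [hff, zero_mul, map_zero, add_zero, ← tr_mul_proj hi2 hy w]
  apply h i j hi hj y hy _ (proj_mem _ _ _) y' hy' _ (proj_mem (W.isInternal X) (2 * X.dim - j) w')
  rintro _ ⟨z, hz, rfl⟩
  have hφ : W.corr (W.cl (X.prod X) z) ∈ KOp W X X 0 := KOp.gen (p := X.dim) (by ring) hz
  rw [mul_add, map_add, tr_cycle_ext, tr_cycle_ext, tr_mul_proj hi2 (kop_gr hφ i hy),
    tr_mul_proj hj2 (kop_gr hφ j hy'), ← hff]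
  exact hfM ⟨_, hφ, rfl⟩

/-- Separation gives the detection of the pairs. -/
theorem detectsParity_of_separates
    (h : SeparatesParity (W.gr X) (cycleOperators W X X.dim)) : DetectsParity W X := by
  intro i j hi hj y hy w _ y' hy' w' _ horth
  obtain ⟨φ, hφ, h1, h2⟩ := h i j hi hj y hy y' hy'
  have key : ∀ φ ∈ Submodule.span W.K (cycleOperators W X X.dim),
      W.tr X (φ y * w) + W.tr X (φ y' * w') = 0 := by
    intro φ hφ
    induction hφ using Submodule.span_induction with
    | mem φ hφ =>
      obtain ⟨z, hz, rfl⟩ := hφ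
      have := horth _ ⟨z, hz, rfl⟩
      rwa [mul_add, map_add, tr_cycle_ext, tr_cycle_ext] at this
    | zero => simp
    | add φ ψ _ _ h1 h2 =>
      rw [LinearMap.add_apply, LinearMap.add_apply, add_mul, add_mul, map_add, map_add]
      linear_combination h1 + h2
    | smul a φ _ h1 =>
      rw [LinearMap.smul_apply, LinearMap.smul_apply, smul_mul_assoc, smul_mul_assoc, map_smul,
        map_smul, ← smul_add, h1, smul_zero]
  have := key φ hφ
  rwa [h1, h2, zero_mul, map_zero, add_zero] at this

/-- The algebra of the combinations of correspondences of degree zero. -/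
noncomputable def kAlg (W : WeilCohomology.{u, v} ops) (X : 𝒱.Obj) :
    Subalgebra W.K (Module.End W.K (W.H X)) :=
  (KOp W X X 0).toSubalgebra (KOp.id X) (fun _ _ ha hb => KOp.cast (KOp.comp ha hb) (by ring))

/-- **Descent of the even projector from `K` to the rational numbers.** -/
theorem signStd_of_span (h : EvenProjInSpan (W.gr X) (cycleOperators W X X.dim)) :
    SignStd W X := by
  obtain ⟨P, hP, hP'⟩ := h
  rw [span_cycleOperators0] at hP
  have hPe : P = evenProj (W.isInternal X) := isEvenProj_iff.1 hP'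
  have hOA := rop_opAlg (W := W) (X := X)
  have hcomm : ∀ x ∈ KOp W X X 0, P * x = x * P := by
    intro x hx
    have hx' : IsHom (W.gr X) 0 x := by
      intro i a ha
      have := KOp.isHom hx i a ha
      simpa using this
    rw [hPe]
    exact (Sgn.evenProj_comm _ hx').symm.eq
  have hidem : P * P = P := by rw [hPe]; exact Sgn.evenProj_idem _
  let A : Set (kAlg W X) := {x | ROp W X 0 x.1}
  have hA : ∀ x : kAlg W X, x ∈ A ↔ ROp W X 0 (x : Module.End W.K (W.H X)) := fun _ => Iff.rfl
  have hk : ∀ y, y ∈ kAlg W X ↔ y ∈ KS (ROp W X) 0 := fun y => mem_KS_iff.symm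
  have hPk : P ∈ kAlg W X := hP
  have hmem : (⟨P, hPk⟩ : kAlg W X) ∈ A := by
    apply central_idem_mem (K := W.K) (V := W.H X) (A := A) ((hA _).2 hOA.one)
      (fun x hx y hy => (hA _).2 (hOA.add hx hy)) (fun q x hx => (hA _).2 (hOA.smul q hx))
      (fun x hx y hy => (hA _).2 (hOA.cast (hOA.mul hx hy) (by ring))) ?_ (kAlg W X).val
      Subtype.val_injective
    · exact Subtype.ext hidem
    · exact fun x => Subtype.ext (hcomm x.1 x.2)
    · intro x hx
      obtain ⟨q, hq⟩ := rop_str (W := W) (X := X) x.1 hx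
      refine ⟨q, ?_⟩
      have e1 : (kAlg W X).val ((⟨P, hPk⟩ : kAlg W X) * x) = P * x.1 := rfl
      have e2 : (kAlg W X).val ((1 - (⟨P, hPk⟩ : kAlg W X)) * x) = (1 - P) * x.1 := rfl
      rw [← hq, Sgn.par_eq, ← hPe, e1, e2, ← map_sub, ← sub_mul]
    · rw [eq_top_iff]
      rintro ⟨y, hy⟩ -
      have key : ∀ y (hy : y ∈ KS (ROp W X) 0),
          (⟨y, (hk y).2 hy⟩ : kAlg W X) ∈ Submodule.span W.K A := by
        intro y hy
        induction hy using Submodule.span_induction with
        | mem y hy => exact Submodule.subset_span ((hA _).2 hy)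
        | zero => exact Submodule.zero_mem _
        | add x y _ _ h1 h2 => exact Submodule.add_mem _ h1 h2
        | smul a x _ h1 => exact Submodule.smul_mem _ a h1
      exact key y ((hk y).1 hy)
  obtain ⟨z, hz, hz'⟩ := exists_of_rop (p := X.dim) (by simp) (show ROp W X 0 P from hmem)
  exact ⟨z, hz, by rw [hz']; exact hP'⟩

/-- **The pointwise principle for the even Kunneth projector.** -/
theorem sign_tfae (W : WeilCohomology.{u, v} ops) (X : 𝒱.Obj) :
    [SignStd W X, EvenProjInSpan (W.gr X) (cycleOperators W X X.dim),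
      SeparatesParity (W.gr X) (cycleOperators W X X.dim), DetectsParity W X,
      StableParity (W.gr X) (cycleOperators W X X.dim)].TFAE := by
  tfae_have 1 → 2 := by
    rintro ⟨z, hz, hz'⟩
    exact ⟨_, Submodule.subset_span ⟨z, hz, rfl⟩, hz'⟩
  tfae_have 2 → 1 := signStd_of_span
  tfae_have 2 → 5 := by
    rintro ⟨P, hP, hP'⟩ N hN Q hQ x hx
    have hPQ : P = Q := gr_ext (W.isInternal X) (fun j a ha => by rw [hP' j a ha, hQ j a ha])
    have key : ∀ φ ∈ Submodule.span W.K (cycleOperators W X X.dim), ∀ x ∈ N, φ x ∈ N := by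
      intro φ hφ
      induction hφ using Submodule.span_induction with
      | mem φ hφ => exact hN φ hφ
      | zero => exact fun x _ => Submodule.zero_mem _
      | add φ ψ _ _ h1 h2 => exact fun x hx => Submodule.add_mem _ (h1 x hx) (h2 x hx)
      | smul a φ _ h => exact fun x hx => Submodule.smul_mem _ _ (h x hx)
    rw [← hPQ]
    exact key P hP x hx
  tfae_have 5 → 3 := by
    intro h i j hi hj y hy y' hy'
    have hproj : IsEvenProj (W.gr X) (evenProj (W.isInternal X)) := isEvenProj_iff.2 rfl
    have hne : i ≠ j := by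
      rintro rfl
      exact (Nat.not_even_iff_odd.2 hj) hi
    have h1 := h (orb W X 0 (y + y'))
      (by
        rintro _ ⟨z, hz, rfl⟩ x hx
        exact orb_step (KOp.gen (p := X.dim) (d := 0) (by ring) hz) hx (add_zero _))
      _ hproj (y + y') (self_mem_orb _)
    rw [map_add, hproj i y hy, hproj j y' hy', if_pos hi, if_neg (Nat.not_even_iff_odd.2 hj),
      add_zero] at h1
    obtain ⟨φ, hφ, hφy⟩ := h1
    have hφy' : φ y + φ y' = y := by
      rw [← map_add]
      exact hφy
    have h2 := congrArg (proj (W.isInternal X) i) hφy'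
    rw [map_add, proj_same _ (kop_gr hφ i hy), proj_ne _ (kop_gr hφ j hy') hne.symm, add_zero,
      proj_same _ hy] at h2
    refine ⟨φ, by rw [span_cycleOperators0]; exact hφ, h2, ?_⟩
    rw [h2] at hφy'
    simpa using hφy'
  tfae_have 3 → 2 := by
    intro h
    apply evenProj_of_separates (N := 2 * X.dim + 1)
      (fun i hi => W.gr_eq_bot X i (by omega))
    · rw [span_cycleOperators0]; exact KOp.id X
    · rw [span_cycleOperators0]
      exact fun a ha b hb => KOp.cast (KOp.comp ha hb) (by ring)
    · rw [span_cycleOperators0]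
      exact fun a ha i y hy => kop_gr ha i hy
    · exact h
  tfae_have 3 → 4 := detectsParity_of_separates
  tfae_have 4 → 3 := separatesParity_of_detects
  tfae_finish

end Cyc

end Pool.Agent.TH133.PW
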