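import Pool.Agent.TH122.KmC
import Pool.Agent.H914R2.HodgeDefs
import Pool.Agent.TH133.PW.Defs

/-!
# The pointwise principle for the Kunneth projectors: definitions
-/

open CategoryTheory AlgebraicGeometry

universe u v

namespace Pool.Agent.TH133.PW

open Pool.Agent.H914 VarClass Obj WeilCohomology Pool.Agent.TH122.Km

section Alg

variable {K : Type*} [Field K] {V : Type*} [AddCommGroup V] [Module K V]

/-- The projector onto `gr i` is a linear combination of the operators in `S`. -/
def ProjectorInSpan (gr : ℕ → Submodule K V) (i : ℕ) (S : Set (V →ₗ[K] V)) : Prop :=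
  ∃ P ∈ Submodule.span K S, IsProjector gr i P

/-- For all `j ≠ i`, `y` in `gr i` and `y'` in `gr j` some linear combination `φ` of the operators in
`S`, which may depend on `y` and `y'`, satisfies `φ y = y` and `φ y' = 0`. -/
def Separates (gr : ℕ → Submodule K V) (i : ℕ) (S : Set (V →ₗ[K] V)) : Prop :=
  ∀ j, j ≠ i → ∀ y ∈ gr i, ∀ y' ∈ gr j, ∃ φ ∈ Submodule.span K S, φ y = y ∧ φ y' = 0

/-- Every subspace stable under the operators in `S` is stable under the projector onto `gr i`. -/
def StableSplit (gr : ℕ → Submodule K V) (i : ℕ) (S : Set (V →ₗ[K] V)) : Prop :=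
  ∀ N : Submodule K V, (∀ φ ∈ S, ∀ x ∈ N, φ x ∈ N) → ∀ P : Module.End K V, IsProjector gr i P →
    ∀ x ∈ N, P x ∈ N

variable {A B : Type*} [Ring A] [Algebra K A] [Ring B] [Algebra K B]

/-- The element `τ` is orthogonal to the elements of `Z`. -/
def OrthogonalTo (tr : B →ₗ[K] K) (Z : Set B) (τ : B) : Prop := ∀ c ∈ Z, tr (c * τ) = 0

/-- If `j ≠ i` and `p(y) q(w) + p(y') q(w')` is orthogonal to the elements of `Z`, for `y`, `w`,
`y'`, `w'` of degrees `i`, `2 n - i`, `j`, `2 n - j`, then `tr (y w) = 0`. -/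
def DetectsSums (gr : ℕ → Submodule K A) (n i : ℕ) (tr : A →ₗ[K] K) (tr' : B →ₗ[K] K)
    (p q : A →ₐ[K] B) (Z : Set B) : Prop :=
  ∀ j, j ≠ i → ∀ y ∈ gr i, ∀ w ∈ gr (2 * n - i), ∀ y' ∈ gr j, ∀ w' ∈ gr (2 * n - j),
    OrthogonalTo tr' Z (p y * q w + p y' * q w') → tr (y * w) = 0

end Alg

variable {k : Type u} [Field k] {𝒱 : VarClass k} {ops : CycleOps 𝒱}

/-- If `j ≠ i` and the class `y × w + y' × w'` is orthogonal to all algebraic cycles of codimension
`n = dim X` on `X × X`, for `y`, `w`, `y'`, `w'` of degrees `i`, `2 n - i`, `j`, `2 n - j`, then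
`tr (y w) = 0`. -/
def DetectsPairs (W : WeilCohomology.{u, v} ops) (X : 𝒱.Obj) (i : ℕ) : Prop :=
  DetectsSums (W.gr X) X.dim i (W.tr X) (W.tr (X.prod X)) (W.map (fst X X)) (W.map (snd X X))
    (algClasses W (X.prod X) X.dim)

/-- One cycle on `X × X` induces the projector onto `H ^ i(X)` for all the theories in `𝒲`. -/
def OneProjectorForAll (𝒲 : Set (WeilCohomology.{u, v} ops)) (X : 𝒱.Obj) (i : ℕ) : Prop :=
  ∃ P, (X.prod X).IsCyc X.dim P ∧ ∀ W ∈ 𝒲, InducesProjector W X i P

/-- For one theory in `𝒲` the classes of degree `i` are separated from the classes of other degrees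
by combinations of algebraic correspondences, one pair of classes at a time. -/
def SeparatesForOne (𝒲 : Set (WeilCohomology.{u, v} ops)) (X : 𝒱.Obj) (i : ℕ) : Prop :=
  ∃ W ∈ 𝒲, Separates (W.gr X) i (cycleOperators W X X.dim)

/-- For one theory in `𝒲` the algebraic cycles detect the sums of two products of homogeneous
classes. -/
def DetectsForOne (𝒲 : Set (WeilCohomology.{u, v} ops)) (X : 𝒱.Obj) (i : ℕ) : Prop :=
  ∃ W ∈ 𝒲, DetectsPairs W X i

/-- For one theory in `𝒲` every subspace of `H(X)` stable under the algebraic correspondences of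
degree zero is stable under the projector onto `H ^ i(X)`. -/
def SplitForOne (𝒲 : Set (WeilCohomology.{u, v} ops)) (X : 𝒱.Obj) (i : ℕ) : Prop :=
  ∃ W ∈ 𝒲, StableSplit (W.gr X) i (cycleOperators W X X.dim)

/-- For all `j` and all cycles `z` of codimension `dim X` on `X × X` the traces of `z` on `H ^ j(X)`
for the theories in `𝒲` are all equal to the same rational number. -/
def SameTracesAll (𝒲 : Set (WeilCohomology.{u, v} ops)) (X : 𝒱.Obj) : Prop :=
  ∀ j, SameTraces 𝒲 X j

end Pool.Agent.TH133.PW
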