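import Pool.Agent.H914R2.KLef
import Pool.Agent.TH133.PW.Defs
import Pool.Agent.TH133.PW.Lin

/-!
# The pointwise form of the Lefschetz standard conjecture
-/

open CategoryTheory AlgebraicGeometry Finset

universe u v

namespace Pool.Agent.TH133.PW

open Pool.Agent.H914 VarClass Obj WeilCohomology

variable {k : Type u} [Field k] {𝒱 : VarClass k} {ops : CycleOps 𝒱}
  {W : WeilCohomology.{u, v} ops} {X : 𝒱.Obj}

lemma span_cycleOperators {p : ℕ} {d : ℤ} (hp : (p : ℤ) = X.dim + d) :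
    Submodule.span W.K (cycleOperators W X p) = KOp W X X d := by
  congr 1
  ext φ
  constructor
  · rintro ⟨z, hz, rfl⟩
    exact ⟨p, hp, z, hz, rfl⟩
  · rintro ⟨q, hq, z, hz, rfl⟩
    obtain rfl : q = p := by omega
    exact ⟨z, hz, rfl⟩

lemma hasPreimage_iff {D : X.Cycles} {c : ℕ} (hc : c ≤ X.dim) {y : W.H X} :
    HasPreimage W X D c y ↔ ∃ φ ∈ KOp W X X (-c), W.cl X D ^ c * φ y = y := by
  rw [HasPreimage, InvertsAt, span_cycleOperators (d := -c) (by push_cast [hc]; ring)]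

/-- The images of `y` under the combinations of correspondences of degree `d`. -/
noncomputable def orb (W : WeilCohomology.{u, v} ops) (X : 𝒱.Obj) (d : ℤ) (y : W.H X) :
    Submodule W.K (W.H X) :=
  (KOp W X X d).map (LinearMap.applyₗ y)

lemma mem_orb {d : ℤ} {y x : W.H X} : x ∈ orb W X d y ↔ ∃ φ ∈ KOp W X X d, φ y = x := Iff.rfl

lemma self_mem_orb (y : W.H X) : y ∈ orb W X 0 y := ⟨LinearMap.id, KOp.id X, rfl⟩

lemma orb_step {d e f : ℤ} {y x : W.H X} {φ : W.H X →ₗ[W.K] W.H X} (hφ : φ ∈ KOp W X X e)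
    (hx : x ∈ orb W X d y) (hf : d + e = f) : φ x ∈ orb W X f y := by
  obtain ⟨ψ, hψ, rfl⟩ := hx
  exact ⟨φ ∘ₗ ψ, KOp.cast (KOp.comp hφ hψ) hf, rfl⟩

lemma orb_le {d : ℤ} {i : ℕ} {y : W.H X} (hy : y ∈ W.gr X i) :
    orb W X d y ≤ grZ (W.gr X) (i + 2 * d) := by
  rintro _ ⟨φ, hφ, rfl⟩
  exact KOp.isHom hφ i y (by rw [grZ_natCast]; exact hy)

lemma orb_le' {d : ℤ} {i j : ℕ} {y : W.H X} (hy : y ∈ W.gr X i) (hj : (j : ℤ) = i + 2 * d) :
    orb W X d y ≤ W.gr X j := by
  have := orb_le (d := d) hy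
  rwa [← hj, grZ_natCast] at this

lemma tr_comm_zero {i j : ℕ} {x w : W.H X} (hx : x ∈ W.gr X i) (hw : w ∈ W.gr X j)
    (h : W.tr X (x * w) = 0) : W.tr X (w * x) = 0 := by
  rw [W.comm hw hx, map_smul, h, smul_zero]

/-- Cup product with `D ^ c`. -/
lemma pow_cl_mem {D : X.Cycles} (hD : X.IsCyc 1 D) (c : ℕ) :
    LinearMap.mulLeft W.K (W.cl X D ^ c) ∈ KOp W X X c := by
  have h1 : LinearMap.mulLeft W.K (W.cl X D) ∈ KOp W X X 1 :=
    mem_KS_iff.1 (Submodule.subset_span (rop_mulLeft hD))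
  induction c with
  | zero =>
    rw [pow_zero, LinearMap.mulLeft_one]
    exact KOp.id X
  | succ c ih =>
    have : LinearMap.mulLeft W.K (W.cl X D ^ (c + 1)) =
        LinearMap.mulLeft W.K (W.cl X D) ∘ₗ LinearMap.mulLeft W.K (W.cl X D ^ c) := by
      rw [pow_succ', LinearMap.mulLeft_mul]
    rw [this]
    exact KOp.cast (KOp.comp h1 ih) (by push_cast; ring)

lemma finrank_map_subtype {K V : Type*} [Field K] [AddCommGroup V] [Module K V]
    (E : Submodule K V) (p : Submodule K E) :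
    Module.finrank K (p.map E.subtype) = Module.finrank K p :=
  (LinearEquiv.finrank_eq (Submodule.equivMapOfInjective E.subtype E.subtype_injective p)).symm

lemma finrank_map_injOn {K V V' : Type*} [Field K] [AddCommGroup V] [Module K V]
    [AddCommGroup V'] [Module K V'] (f : V →ₗ[K] V') (F : Submodule K V)
    (hf : ∀ x ∈ F, f x = 0 → x = 0) :
    Module.finrank K (F.map f) = Module.finrank K F := by
  rw [← LinearMap.range_domRestrict]
  apply LinearMap.finrank_range_of_inj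
  rw [injective_iff_map_eq_zero]
  intro x hx
  exact Subtype.ext (hf x x.2 hx)

/-- The vectors of `orb 0 y` orthogonal to `orb (-c) y`. -/
noncomputable def nPlus (W : WeilCohomology.{u, v} ops) (X : 𝒱.Obj) (d e : ℤ) (y : W.H X) :
    Submodule W.K (W.H X) :=
  orb W X d y ⊓ ⨅ w ∈ orb W X e y, LinearMap.ker (W.tr X ∘ₗ LinearMap.mulRight W.K w)

lemma mem_nPlus {d e : ℤ} {y x : W.H X} : x ∈ nPlus W X d e y ↔
    x ∈ orb W X d y ∧ ∀ w ∈ orb W X e y, W.tr X (x * w) = 0 := by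
  simp [nPlus]

/-- If `D ^ c` is injective on `H^(n - c)(X)` and the dimensions of the radicals satisfy the
inequality, then `y` has a preimage in its orbit. -/
lemma preimage_of_finrank {D : X.Cycles} (hD : X.IsCyc 1 D) {c : ℕ} (hc : c ≤ X.dim)
    (hinj : ∀ a ∈ W.gr X (X.dim - c), W.cl X D ^ c * a = 0 → a = 0)
    {y : W.H X} (hy : y ∈ W.gr X (X.dim + c))
    (h : Module.finrank W.K (nPlus W X 0 (-c) y) ≤ Module.finrank W.K (nPlus W X (-c) 0 y)) :
    HasPreimage W X D c y := by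
  set E := orb W X 0 y with hE
  set F := orb W X (-c) y with hF
  have hEgr : E ≤ W.gr X (X.dim + c) := orb_le' hy (by push_cast; ring)
  have hFgr : F ≤ W.gr X (X.dim - c) := orb_le' hy (by push_cast [hc]; ring)
  -- the pairing between `E` and `F`
  let B : E →ₗ[W.K] F →ₗ[W.K] W.K :=
    ((LinearMap.mul W.K (W.H X)).compr₂ (W.tr X)).domRestrict₁₂ E F
  have hB : ∀ (x : E) (w : F), B x w = W.tr X ((x : W.H X) * w) := fun _ _ => rfl
  have hk := finrank_ker_pairing B
  have hk1 : Module.finrank W.K (LinearMap.ker B) =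
      Module.finrank W.K (nPlus W X 0 (-c) y) := by
    have : nPlus W X 0 (-c) y = (LinearMap.ker B).map E.subtype := by
      ext x
      rw [mem_nPlus, Submodule.mem_map]
      constructor
      · rintro ⟨hx, hx'⟩
        refine ⟨⟨x, hx⟩, ?_, rfl⟩
        rw [LinearMap.mem_ker]
        ext w
        rw [hB]
        exact hx' w w.2
      · rintro ⟨x', hx', rfl⟩
        refine ⟨x'.2, fun w hw => ?_⟩
        have := congrArg (fun f => f ⟨w, hw⟩) (LinearMap.mem_ker.1 hx')
        simpa [hB] using this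
    rw [this, finrank_map_subtype]
  have hk2 : Module.finrank W.K (LinearMap.ker B.flip) =
      Module.finrank W.K (nPlus W X (-c) 0 y) := by
    have : nPlus W X (-c) 0 y = (LinearMap.ker B.flip).map F.subtype := by
      ext x
      rw [mem_nPlus, Submodule.mem_map]
      constructor
      · rintro ⟨hx, hx'⟩
        refine ⟨⟨x, hx⟩, ?_, rfl⟩
        rw [LinearMap.mem_ker]
        ext w
        rw [LinearMap.flip_apply, hB]
        exact tr_comm_zero (hFgr hx) (hEgr w.2) (hx' w w.2)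
      · rintro ⟨x', hx', rfl⟩
        refine ⟨x'.2, fun w hw => ?_⟩
        have := congrArg (fun f => f ⟨w, hw⟩) (LinearMap.mem_ker.1 hx')
        exact tr_comm_zero (hEgr hw) (hFgr x'.2) (by simpa [hB] using this)
    rw [this, finrank_map_subtype]
  have hEF : Module.finrank W.K E ≤ Module.finrank W.K F := by omega
  -- `D ^ c` maps `F` into `E`, injectively
  have hLF : F.map (LinearMap.mulLeft W.K (W.cl X D ^ c)) ≤ E := by
    rintro _ ⟨w, hw, rfl⟩
    exact orb_step (pow_cl_mem hD c) hw (by ring)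
  have hfr : Module.finrank W.K (F.map (LinearMap.mulLeft W.K (W.cl X D ^ c))) =
      Module.finrank W.K F :=
    finrank_map_injOn _ _ (fun x hx h0 => hinj x (hFgr hx) h0)
  have hEq : F.map (LinearMap.mulLeft W.K (W.cl X D ^ c)) = E :=
    Submodule.eq_of_le_of_finrank_le hLF (by omega)
  have hyE : y ∈ E := self_mem_orb y
  rw [← hEq] at hyE
  obtain ⟨w, ⟨φ, hφ, rfl⟩, hw⟩ := hyE
  exact (hasPreimage_iff hc).2 ⟨φ, hφ, hw⟩

/-- A class orthogonal to `orb (-c) y` is isotropic. -/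
lemma isotropic_of_mem_nPlus {c : ℕ} (hc : c ≤ X.dim) {y x : W.H X}
    (hy : y ∈ W.gr X (X.dim + c)) (hx : x ∈ nPlus W X 0 (-c) y) : IsIsotropicClass W X c x := by
  obtain ⟨hx1, hx2⟩ := mem_nPlus.1 hx
  rintro _ ⟨z, hz, rfl⟩
  have hφ : W.corr (W.cl (X.prod X) z) ∈ KOp W X X (-c) :=
    KOp.gen (p := X.dim - c) (by push_cast [hc]; ring) hz
  have h1 := orb_step hφ hx1 (zero_add _)
  exact tr_comm_zero (orb_le' (j := X.dim + c) hy (by push_cast; ring) hx1)
    (orb_le' (j := X.dim - c) hy (by push_cast [hc]; ring) h1) (hx2 _ h1)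

/-- If all isotropic classes have preimages, then all classes have. -/
theorem preimage_of_isotropic {D : X.Cycles} (hD : X.IsCyc 1 D) {c : ℕ} (hc : c ≤ X.dim)
    (hinj : ∀ a ∈ W.gr X (X.dim - c), W.cl X D ^ c * a = 0 → a = 0)
    (h : ∀ y ∈ W.gr X (X.dim + c), IsIsotropicClass W X c y → HasPreimage W X D c y)
    {y : W.H X} (hy : y ∈ W.gr X (X.dim + c)) : HasPreimage W X D c y := by
  apply preimage_of_finrank hD hc hinj hy
  have hle : nPlus W X 0 (-c) y ≤
      (nPlus W X (-c) 0 y).map (LinearMap.mulLeft W.K (W.cl X D ^ c)) := by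
    intro x hx
    obtain ⟨hx1, hx2⟩ := mem_nPlus.1 hx
    obtain ⟨φ, hφ, hφx⟩ := (hasPreimage_iff hc).1
      (h x (orb_le' (j := X.dim + c) hy (by push_cast; ring) hx1)
        (isotropic_of_mem_nPlus hc hy hx))
    refine ⟨φ x, mem_nPlus.2 ⟨orb_step hφ hx1 (zero_add _), fun w hw => ?_⟩, hφx⟩
    obtain ⟨ψ, hψ, hadj⟩ := KOp.exists_adjoint hφ
    rw [hadj]
    exact hx2 _ (orb_step hψ hw (by ring))
  refine (Submodule.finrank_mono hle).trans ?_
  exact Submodule.finrank_map_le _ _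

/-- The pointwise principle in one degree: a combination of correspondences which is inverse to
`D ^ c`. -/
theorem uniform_preimage {D : X.Cycles} (hD : X.IsCyc 1 D) {c : ℕ} (hc : c ≤ X.dim)
    (h : ∀ y ∈ W.gr X (X.dim + c), HasPreimage W X D c y) :
    ∃ φ ∈ KOp W X X (-c), ∀ y ∈ W.gr X (X.dim + c), W.cl X D ^ c * φ y = y := by
  have hL := pow_cl_mem (W := W) hD c
  have := tominaga_uniform (A0 := KOp W X X 0) (Am := KOp W X X (-c))
    (L := LinearMap.mulLeft W.K (W.cl X D ^ c)) (U := W.gr X (X.dim + c))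
    (IsNoetherian.noetherian _) ?_ ?_ ?_ ?_
  · exact this
  · intro a ha
    exact Submodule.sub_mem _ (KOp.id X) (KOp.cast (KOp.comp hL ha) (by ring))
  · intro a ha b hb
    exact KOp.cast (KOp.comp ha hb) (by ring)
  · intro b hb y hy
    have := KOp.isHom hb _ y (by rw [grZ_natCast]; exact hy)
    rwa [mul_zero, add_zero, grZ_natCast] at this
  · intro y hy
    exact (hasPreimage_iff hc).1 (h y hy)

/-- The graded subspace generated by `y`. -/
noncomputable def gen (W : WeilCohomology.{u, v} ops) (X : 𝒱.Obj) (m : ℕ) (y : W.H X) (j : ℕ) :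
    Submodule W.K (W.H X) :=
  ⨆ d : {d : ℤ // (j : ℤ) = m + 2 * d}, orb W X d y

lemma gen_eq {m j : ℕ} {d : ℤ} {y : W.H X} (hd : (j : ℤ) = m + 2 * d) :
    gen W X m y j = orb W X d y := by
  apply le_antisymm
  · exact iSup_le (fun ⟨e, he⟩ => by
      obtain rfl : e = d := by omega
      exact le_rfl)
  · exact le_iSup (fun d : {d : ℤ // (j : ℤ) = m + 2 * d} => orb W X d y) ⟨d, hd⟩

lemma gen_eq_bot {m j : ℕ} {y : W.H X} (hd : ∀ d : ℤ, (j : ℤ) ≠ m + 2 * d) :
    gen W X m y j = ⊥ := by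
  have : IsEmpty {d : ℤ // (j : ℤ) = m + 2 * d} := ⟨fun ⟨d, h⟩ => hd d h⟩
  exact iSup_of_empty _

lemma gen_le {m : ℕ} {y : W.H X} (hy : y ∈ W.gr X m) (j : ℕ) : gen W X m y j ≤ W.gr X j :=
  iSup_le (fun d => orb_le' hy d.2)

lemma gen_step {m i j : ℕ} {e : ℤ} {y x : W.H X} {φ : W.H X →ₗ[W.K] W.H X}
    (hφ : φ ∈ KOp W X X e) (hj : (j : ℤ) = i + 2 * e) (hx : x ∈ gen W X m y i) :
    φ x ∈ gen W X m y j := by
  by_cases h : ∃ d : ℤ, (i : ℤ) = m + 2 * d
  · obtain ⟨d, hd⟩ := h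
    rw [gen_eq hd] at hx
    rw [gen_eq (d := d + e) (by omega)]
    exact orb_step hφ hx rfl
  · push Not at h
    rw [gen_eq_bot h] at hx
    rw [(Submodule.mem_bot _).1 hx, map_zero]
    exact Submodule.zero_mem _

/-- The radical of the graded subspace generated by `y`. -/
noncomputable def rad (W : WeilCohomology.{u, v} ops) (X : 𝒱.Obj) (m : ℕ) (y : W.H X) (j : ℕ) :
    Submodule W.K (W.H X) :=
  gen W X m y j ⊓ ⨅ i : ℕ, ⨅ w ∈ gen W X m y i,
    LinearMap.ker (W.tr X ∘ₗ LinearMap.mulRight W.K w)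

lemma mem_rad {m j : ℕ} {y x : W.H X} : x ∈ rad W X m y j ↔
    x ∈ gen W X m y j ∧ ∀ i, ∀ w ∈ gen W X m y i, W.tr X (x * w) = 0 := by
  simp [rad]

lemma rad_isStable {m : ℕ} {y : W.H X} (hy : y ∈ W.gr X m) : IsStable W X (rad W X m y) where
  le i := inf_le_left.trans (gen_le hy i)
  stable := by
    rintro p i j hij _ ⟨z, hz, rfl⟩ x hx
    obtain ⟨hx1, hx2⟩ := mem_rad.1 hx
    have hφ : W.corr (W.cl (X.prod X) z) ∈ KOp W X X ((p : ℤ) - X.dim) :=
      KOp.gen (p := p) (by ring) hz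
    refine mem_rad.2 ⟨gen_step hφ (by omega) hx1, fun l w hw => ?_⟩
    obtain ⟨ψ, hψ, hadj⟩ := KOp.exists_adjoint hφ
    rw [hadj]
    by_cases hl : 0 ≤ (l : ℤ) + 2 * ((p : ℤ) - X.dim)
    · obtain ⟨l', hl'⟩ := Int.eq_ofNat_of_zero_le hl
      exact hx2 l' _ (gen_step hψ (by rw [← hl']; ring) hw)
    · have := KOp.isHom hψ l w (by rw [grZ_natCast]; exact gen_le hy l hw)
      rw [grZ_of_neg (by omega)] at this
      rw [(Submodule.mem_bot _).1 this, mul_zero, map_zero]

lemma rad_isIsotropic {m : ℕ} {y : W.H X} : IsIsotropicFor (W.tr X) (rad W X m y) :=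
  fun _ j _ hx w hw => (mem_rad.1 hx).2 j w (mem_rad.1 hw).1

lemma IsStable.kop {N : ℕ → Submodule W.K (W.H X)} (hN : IsStable W X N) {d : ℤ} {i j : ℕ}
    (hj : (j : ℤ) = i + 2 * d) {φ : W.H X →ₗ[W.K] W.H X} (hφ : φ ∈ KOp W X X d) {x : W.H X}
    (hx : x ∈ N i) : φ x ∈ N j := by
  induction hφ using Submodule.span_induction with
  | mem φ hφ =>
    obtain ⟨p, hp, z, hz, rfl⟩ := hφ
    exact hN.stable (by omega) _ ⟨z, hz, rfl⟩ x hx
  | zero => exact Submodule.zero_mem _
  | add φ ψ _ _ h1 h2 => exact Submodule.add_mem _ h1 h2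
  | smul a φ _ h => exact Submodule.smul_mem _ _ h

/-- **The pointwise form of the Lefschetz standard conjecture.** -/
theorem lefschetzB_pointwise {D : X.Cycles} (hD : X.IsCyc 1 D) (hHL : HardLefschetz W X D) :
    [LefschetzB W X D, InverseAtEachClass W X D, InverseAtIsotropicClasses W X D,
      LefschetzOnStable W X D, IsotropicInequality W X].TFAE := by
  have hinj : ∀ c ≤ X.dim, ∀ a ∈ W.gr X (X.dim - c), W.cl X D ^ c * a = 0 → a = 0 := by
    intro c hc a ha h0
    apply (hHL (X.dim - c) (by omega)).1 a ha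
    rw [show X.dim - (X.dim - c) = c by omega, LinearMap.pow_mulLeft]
    exact h0
  have hle : ∀ N, IsStable W X N → LefschetzB W X D → ∀ c ≤ X.dim,
      Module.finrank W.K (N (X.dim + c)) ≤ Module.finrank W.K (N (X.dim - c)) := by
    intro N hN hB c hc
    obtain ⟨ν, hν, hνinj⟩ := inj_of_lefschetzB hD hHL hB c hc
    rw [← finrank_map_injOn ν (N (X.dim + c)) (fun x hx h0 => hνinj x (hN.le _ hx) h0)]
    apply Submodule.finrank_mono
    rintro _ ⟨x, hx, rfl⟩
    exact hN.kop (by push_cast [hc]; ring) hν hx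
  tfae_have 1 → 4 := by
    intro hB N hN c hc y hy
    have h1 := hle N hN hB c hc
    have h2 : (N (X.dim - c)).map (LinearMap.mulLeft W.K (W.cl X D ^ c)) ≤ N (X.dim + c) := by
      rintro _ ⟨x, hx, rfl⟩
      exact hN.kop (by omega) (pow_cl_mem hD c) hx
    have h3 : (N (X.dim - c)).map (LinearMap.mulLeft W.K (W.cl X D ^ c)) = N (X.dim + c) := by
      apply Submodule.eq_of_le_of_finrank_le h2
      rw [finrank_map_injOn _ _ (fun x hx h0 => hinj c hc x (hN.le _ hx) h0)]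
      exact h1
    rw [← h3] at hy
    obtain ⟨x, hx, h⟩ := hy
    exact ⟨x, hx, by rw [LinearMap.pow_mulLeft]; exact h⟩
  tfae_have 4 → 5 := by
    intro h N hN _ c hc
    refine le_trans (Submodule.finrank_mono (t := (N (X.dim - c)).map
      (LinearMap.mulLeft W.K (W.cl X D ^ c))) ?_) (Submodule.finrank_map_le _ _)
    intro y hy
    obtain ⟨x, hx, h'⟩ := h N hN c hc y hy
    exact ⟨x, hx, by rw [LinearMap.pow_mulLeft] at h'; exact h'⟩
  tfae_have 5 → 2 := by
    intro h c hc y hy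
    apply preimage_of_finrank hD hc (hinj c hc) hy
    have h1 := h _ (rad_isStable hy) rad_isIsotropic c hc
    have e1 : gen W X (X.dim + c) y (X.dim + c) = orb W X 0 y := gen_eq (by ring)
    have e2 : gen W X (X.dim + c) y (X.dim - c) = orb W X (-c) y :=
      gen_eq (by push_cast [hc]; ring)
    refine le_trans (Submodule.finrank_mono ?_) (h1.trans (Submodule.finrank_mono ?_))
    · intro x hx
      obtain ⟨hx1, hx2⟩ := mem_nPlus.1 hx
      refine mem_rad.2 ⟨by rw [e1]; exact hx1, fun i w hw => ?_⟩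
      by_cases hi : i = X.dim - c
      · subst hi
        rw [e2] at hw
        exact hx2 w hw
      · exact W.tr_eq_zero (W.mul_mem (orb_le' (j := X.dim + c) hy (by push_cast; ring) hx1)
          (gen_le hy i hw)) (by omega)
    · intro x hx
      obtain ⟨hx1, hx2⟩ := mem_rad.1 hx
      refine mem_nPlus.2 ⟨by rw [← e2]; exact hx1, fun w hw => ?_⟩
      exact hx2 (X.dim + c) w (by rw [e1]; exact hw)
  tfae_have 2 → 3 := fun h c hc y hy _ => h c hc y hy
  tfae_have 3 → 1 := by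
    intro h
    apply lefschetzB_of_inj hD hHL
    intro c hc
    obtain ⟨φ, hφ, hφ'⟩ := uniform_preimage hD hc
      (fun y hy => preimage_of_isotropic hD hc (hinj c hc) (h c hc) hy)
    refine ⟨φ, hφ, fun a ha h0 => ?_⟩
    rw [← hφ' a ha, h0, mul_zero]
  tfae_finish

end Pool.Agent.TH133.PW
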